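import Pool.Agent.Lib.ANT.Mertens
import Pool.Agent.Lib.DirPoly.PrimeSums

/-!
# Piece (B) of the non-lattice theorem

* `mean_value` : weak mean value theorem for Dirichlet polynomials.
* `sum_vonMangoldt_sq` : `∑ Λ(n)²/n b((log n - α)/a)² = a α ∫ b² + O(α + a)`.
-/

open ArithmeticFunction MeasureTheory Finset

namespace Pool.Agent.NonLattice

/-! ### (B1) mean value -/

lemma norm_integral_cpow_le {m n : ℕ} (hm : 0 < m) (hn : 0 < n) (hmn : m ≠ n) (a b : ℝ) :
    ‖∫ t in a..b, (m : ℂ) ^ (-(t * Complex.I) : ℂ) * (starRingEnd ℂ) ((n : ℂ) ^ (-(t * Complex.I) : ℂ))‖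
      ≤ 2 * (max m n : ℕ) / |(m : ℝ) - n| := by
  have hm0 : (m : ℂ) ≠ 0 := by exact_mod_cast hm.ne'
  have hn0 : (n : ℂ) ≠ 0 := by exact_mod_cast hn.ne'
  have hmr : (0:ℝ) < m := by exact_mod_cast hm
  have hnr : (0:ℝ) < n := by exact_mod_cast hn
  set c : ℂ := ((Real.log n - Real.log m : ℝ) : ℂ) * Complex.I with hc
  have h1 : ∀ t : ℝ, (m : ℂ) ^ (-(t * Complex.I) : ℂ) *
      (starRingEnd ℂ) ((n : ℂ) ^ (-(t * Complex.I) : ℂ)) = Complex.exp (c * t) := by
    intro t
    rw [Complex.cpow_def_of_ne_zero hm0, Complex.cpow_def_of_ne_zero hn0, ← Complex.exp_conj,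
      ← Complex.exp_add, ← Complex.natCast_log, ← Complex.natCast_log]
    congr 1
    simp only [map_mul, map_neg, Complex.conj_ofReal, Complex.conj_I, hc]
    push_cast
    ring
  have hlog : Real.log n - Real.log m ≠ 0 := by
    intro h
    have h2 : Real.log n = Real.log m := by linarith
    have := Real.log_injOn_pos (Set.mem_Ioi.mpr hnr) (Set.mem_Ioi.mpr hmr) h2
    exact hmn (by exact_mod_cast this.symm)
  have hc0 : c ≠ 0 := by
    rw [hc]
    exact mul_ne_zero (by exact_mod_cast hlog) Complex.I_ne_zero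
  simp only [h1]
  rw [integral_exp_mul_complex hc0, norm_div]
  have h2 : ‖Complex.exp (c * b) - Complex.exp (c * a)‖ ≤ 2 := by
    have h3 : ∀ x : ℝ, ‖Complex.exp (c * x)‖ = 1 := by
      intro x
      rw [hc, mul_assoc, mul_comm Complex.I, ← mul_assoc, ← Complex.ofReal_mul,
        Complex.norm_exp_ofReal_mul_I]
    calc _ ≤ ‖Complex.exp (c * b)‖ + ‖Complex.exp (c * a)‖ := norm_sub_le _ _
      _ = 2 := by rw [h3, h3]; norm_num
  have h3 : ‖c‖ = |Real.log n - Real.log m| := by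
    rw [hc, norm_mul, Complex.norm_I, mul_one, Complex.norm_real, Real.norm_eq_abs]
  have h4 : |(m : ℝ) - n| / (max m n : ℕ) ≤ |Real.log n - Real.log m| := by
    rcases lt_or_gt_of_ne hmn with h | h
    · have h' : (m:ℝ) < n := by exact_mod_cast h
      rw [max_eq_right h.le, abs_sub_comm, abs_of_pos (by linarith),
        abs_of_pos (by have := Real.log_lt_log hmr h'; linarith)]
      rw [← Real.log_div hnr.ne' hmr.ne']
      have := Real.one_sub_inv_le_log_of_pos (x := (n:ℝ) / m) (by positivity)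
      refine le_trans (le_of_eq ?_) this
      rw [inv_div]; field_simp
    · have h' : (n:ℝ) < m := by exact_mod_cast h
      rw [max_eq_left h.le, abs_of_pos (by linarith), abs_sub_comm,
        abs_of_pos (by have := Real.log_lt_log hnr h'; linarith)]
      rw [← Real.log_div hmr.ne' hnr.ne']
      have := Real.one_sub_inv_le_log_of_pos (x := (m:ℝ) / n) (by positivity)
      refine le_trans (le_of_eq ?_) this
      rw [inv_div]; field_simp
  have hd : 0 < |(m : ℝ) - n| := abs_pos.mpr (sub_ne_zero.mpr (by exact_mod_cast hmn))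
  have hM : (0:ℝ) < (max m n : ℕ) := by exact_mod_cast lt_of_lt_of_le hm (le_max_left _ _)
  rw [h3]
  calc _ ≤ 2 / (|(m : ℝ) - n| / (max m n : ℕ)) := by
        gcongr
    _ = _ := by rw [div_div_eq_mul_div]

lemma sum_inv_abs_sub_le {N m : ℕ} (hN : 1 ≤ N) (hm : m ∈ Icc 1 N) :
    ∑ n ∈ (Icc 1 N).filter (fun n => n ≠ m), 1 / |(m : ℝ) - n| ≤ 2 * (1 + Real.log N) := by
  rw [mem_Icc] at hm
  have hH : ∀ k : ℕ, k ≤ N → ∑ j ∈ Icc 1 k, 1 / (j:ℝ) ≤ 1 + Real.log N := by
    intro k hk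
    have h1 := Pool.Agent.ANT.Hs_le N
    have h2 : ∑ j ∈ Icc 1 k, 1 / (j:ℝ) ≤ Pool.Agent.ANT.Hs N := by
      unfold Pool.Agent.ANT.Hs
      refine Finset.sum_le_sum_of_subset_of_nonneg ?_ fun _ _ _ => by positivity
      intro j hj
      rw [mem_Icc] at hj
      rw [mem_Ioc]
      omega
    linarith
  have hsplit : (Icc 1 N).filter (fun n => n ≠ m) = Icc 1 (m - 1) ∪ Icc (m + 1) N := by
    ext n
    simp only [mem_filter, mem_Icc, mem_union]
    omega
  have hdisj : Disjoint (Icc 1 (m - 1)) (Icc (m + 1) N) := by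
    rw [Finset.disjoint_left]
    intro n h1 h2
    rw [mem_Icc] at h1 h2
    omega
  rw [hsplit, Finset.sum_union hdisj]
  have h1 : ∑ n ∈ Icc 1 (m - 1), 1 / |(m : ℝ) - n| = ∑ j ∈ Icc 1 (m - 1), 1 / (j:ℝ) := by
    refine Finset.sum_nbij' (fun n => m - n) (fun j => m - j) ?_ ?_ ?_ ?_ ?_
    · intro n hn; rw [mem_Icc] at hn ⊢; omega
    · intro n hn; rw [mem_Icc] at hn ⊢; omega
    · intro n hn; rw [mem_Icc] at hn; omega
    · intro n hn; rw [mem_Icc] at hn; omega
    · intro n hn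
      rw [mem_Icc] at hn
      rw [Nat.cast_sub (by omega), abs_of_nonneg]
      have : (n:ℝ) ≤ m := by exact_mod_cast (by omega : n ≤ m)
      linarith
  have h2 : ∑ n ∈ Icc (m + 1) N, 1 / |(m : ℝ) - n| = ∑ j ∈ Icc 1 (N - m), 1 / (j:ℝ) := by
    refine Finset.sum_nbij' (fun n => n - m) (fun j => m + j) ?_ ?_ ?_ ?_ ?_
    · intro n hn; rw [mem_Icc] at hn ⊢; omega
    · intro n hn; rw [mem_Icc] at hn ⊢; omega
    · intro n hn; rw [mem_Icc] at hn; omega
    · intro n hn; rw [mem_Icc] at hn; omega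
    · intro n hn
      rw [mem_Icc] at hn
      rw [Nat.cast_sub (by omega), abs_sub_comm, abs_of_nonneg]
      have : (m:ℝ) ≤ n := by exact_mod_cast (by omega : m ≤ n)
      linarith
  rw [h1, h2]
  have h3 := hH (m - 1) (by omega)
  have h4 := hH (N - m) (by omega)
  linarith

/-- (B1) Weak mean value theorem. -/
theorem mean_value {N : ℕ} (hN : 1 ≤ N) (c : ℕ → ℂ) (a b : ℝ) :
    |(∫ t in a..b, ‖∑ n ∈ Icc 1 N, c n * (n : ℂ) ^ (-(t * Complex.I) : ℂ)‖ ^ 2) -
      (b - a) * ∑ n ∈ Icc 1 N, ‖c n‖ ^ 2| ≤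
      4 * N * (1 + Real.log N) * ∑ n ∈ Icc 1 N, ‖c n‖ ^ 2 := by
  set e : ℕ → ℝ → ℂ := fun n t => (n : ℂ) ^ (-(t * Complex.I) : ℂ) with he
  have hcont : ∀ n ∈ Icc 1 N, Continuous (e n) := by
    intro n hn
    rw [mem_Icc] at hn
    have hn0 : (n : ℂ) ≠ 0 := by exact_mod_cast (by omega : n ≠ 0)
    simp only [he]
    exact Continuous.const_cpow (by fun_prop) (Or.inl hn0)
  have hnorm : ∀ n ∈ Icc 1 N, ∀ t, e n t * (starRingEnd ℂ) (e n t) = 1 := by
    intro n hn t
    rw [mem_Icc] at hn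
    rw [Complex.mul_conj, Complex.normSq_eq_norm_sq]
    simp only [he]
    rw [Complex.norm_natCast_cpow_of_pos (by omega)]
    simp
  have h1 : ∀ t : ℝ, (((‖∑ n ∈ Icc 1 N, c n * e n t‖ ^ 2 : ℝ)) : ℂ) =
      ∑ m ∈ Icc 1 N, ∑ n ∈ Icc 1 N, (c m * (starRingEnd ℂ) (c n)) *
        (e m t * (starRingEnd ℂ) (e n t)) := by
    intro t
    rw [← Complex.normSq_eq_norm_sq, ← Complex.mul_conj, map_sum, Finset.sum_mul_sum]
    refine Finset.sum_congr rfl fun m _ => Finset.sum_congr rfl fun n _ => ?_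
    rw [map_mul]; ring
  have hint : ∀ m ∈ Icc 1 N, ∀ n ∈ Icc 1 N, IntervalIntegrable
      (fun t => (c m * (starRingEnd ℂ) (c n)) * (e m t * (starRingEnd ℂ) (e n t))) volume a b := by
    intro m hm n hn
    apply Continuous.intervalIntegrable
    exact continuous_const.mul ((hcont m hm).mul (Complex.continuous_conj.comp (hcont n hn)))
  have h2 : ((∫ t in a..b, ‖∑ n ∈ Icc 1 N, c n * e n t‖ ^ 2 : ℝ) : ℂ) =
      ∑ m ∈ Icc 1 N, ∑ n ∈ Icc 1 N, (c m * (starRingEnd ℂ) (c n)) *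
        ∫ t in a..b, (e m t * (starRingEnd ℂ) (e n t)) := by
    rw [← intervalIntegral.integral_ofReal]
    simp only [h1]
    rw [intervalIntegral.integral_finset_sum fun m hm => by
      have := IntervalIntegrable.sum (s := Icc 1 N) (f := fun n t =>
        (c m * (starRingEnd ℂ) (c n)) * (e m t * (starRingEnd ℂ) (e n t))) (fun n hn => hint m hm n hn)
      refine this.congr ?_
      intro t _
      simp [Finset.sum_apply]]
    refine Finset.sum_congr rfl fun m hm => ?_
    rw [intervalIntegral.integral_finset_sum fun n hn => hint m hm n hn]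
    refine Finset.sum_congr rfl fun n _ => ?_
    rw [intervalIntegral.integral_const_mul]
  have hdiag : ∀ m ∈ Icc 1 N, (∫ t in a..b, (e m t * (starRingEnd ℂ) (e m t))) = ((b - a : ℝ) : ℂ) := by
    intro m hm
    simp only [hnorm m hm]
    simp
  have h3 : ((∫ t in a..b, ‖∑ n ∈ Icc 1 N, c n * e n t‖ ^ 2 : ℝ) : ℂ) -
      (((b - a) * ∑ n ∈ Icc 1 N, ‖c n‖ ^ 2 : ℝ) : ℂ) =
      ∑ m ∈ Icc 1 N, ∑ n ∈ (Icc 1 N).filter (fun n => n ≠ m), (c m * (starRingEnd ℂ) (c n)) *
        ∫ t in a..b, (e m t * (starRingEnd ℂ) (e n t)) := by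
    rw [h2]
    push_cast
    rw [Finset.mul_sum, ← Finset.sum_sub_distrib]
    refine Finset.sum_congr rfl fun m hm => ?_
    rw [← Finset.sum_filter_add_sum_filter_not (Icc 1 N) (fun n => n ≠ m)
      (fun n => (c m * (starRingEnd ℂ) (c n)) * ∫ t in a..b, (e m t * (starRingEnd ℂ) (e n t)))]
    have h4 : (Icc 1 N).filter (fun n => ¬ n ≠ m) = {m} := by
      ext n
      simp only [mem_filter, not_not, mem_singleton]
      constructor
      · exact fun h => h.2
      · rintro rfl; exact ⟨hm, rfl⟩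
    rw [h4, Finset.sum_singleton, hdiag m hm, Complex.mul_conj, Complex.normSq_eq_norm_sq]
    push_cast
    ring
  have h5 : ∀ m ∈ Icc 1 N, ∀ n ∈ (Icc 1 N).filter (fun n => n ≠ m),
      ‖(c m * (starRingEnd ℂ) (c n)) * ∫ t in a..b, (e m t * (starRingEnd ℂ) (e n t))‖ ≤
        N * (‖c m‖ ^ 2 + ‖c n‖ ^ 2) * (1 / |(m : ℝ) - n|) := by
    intro m hm n hn
    rw [mem_filter] at hn
    have hm' := mem_Icc.mp hm
    have hn' := mem_Icc.mp hn.1
    have h6 := norm_integral_cpow_le (m := m) (n := n) (by omega) (by omega) (Ne.symm hn.2) a b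
    have h7 : 2 * ((max m n : ℕ) : ℝ) / |(m : ℝ) - n| ≤ 2 * N / |(m : ℝ) - n| := by
      gcongr
      exact max_le hm'.2 hn'.2
    rw [norm_mul, norm_mul, RCLike.norm_conj]
    calc ‖c m‖ * ‖c n‖ * _ ≤ ‖c m‖ * ‖c n‖ * (2 * N / |(m : ℝ) - n|) := by
          gcongr
          exact h6.trans h7
      _ = N * (2 * ‖c m‖ * ‖c n‖) * (1 / |(m : ℝ) - n|) := by ring
      _ ≤ _ := by
          gcongr
          exact two_mul_le_add_sq _ _
  have hre : |(∫ t in a..b, ‖∑ n ∈ Icc 1 N, c n * e n t‖ ^ 2) -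
      (b - a) * ∑ n ∈ Icc 1 N, ‖c n‖ ^ 2| =
      ‖((∫ t in a..b, ‖∑ n ∈ Icc 1 N, c n * e n t‖ ^ 2 : ℝ) : ℂ) -
      (((b - a) * ∑ n ∈ Icc 1 N, ‖c n‖ ^ 2 : ℝ) : ℂ)‖ := by
    rw [← Complex.ofReal_sub, Complex.norm_real, Real.norm_eq_abs]
  rw [hre, h3]
  have hswap : ∑ m ∈ Icc 1 N, ∑ n ∈ (Icc 1 N).filter (fun n => n ≠ m),
      ‖c n‖ ^ 2 * (1 / |(m : ℝ) - n|) = ∑ m ∈ Icc 1 N, ∑ n ∈ (Icc 1 N).filter (fun n => n ≠ m),
      ‖c m‖ ^ 2 * (1 / |(m : ℝ) - n|) := by
    simp only [Finset.sum_filter]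
    rw [Finset.sum_comm]
    refine Finset.sum_congr rfl fun m _ => Finset.sum_congr rfl fun n _ => ?_
    rw [abs_sub_comm]
    by_cases h : m = n
    · subst h; simp
    · simp [h, Ne.symm h]
  calc _ ≤ ∑ m ∈ Icc 1 N, ∑ n ∈ (Icc 1 N).filter (fun n => n ≠ m),
        (N:ℝ) * (‖c m‖ ^ 2 + ‖c n‖ ^ 2) * (1 / |(m : ℝ) - n|) := by
        refine (norm_sum_le _ _).trans (Finset.sum_le_sum fun m hm => ?_)
        exact (norm_sum_le _ _).trans (Finset.sum_le_sum fun n hn => h5 m hm n hn)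
    _ = (N:ℝ) * (∑ m ∈ Icc 1 N, ∑ n ∈ (Icc 1 N).filter (fun n => n ≠ m), ‖c m‖ ^ 2 * (1 / |(m : ℝ) - n|) +
        ∑ m ∈ Icc 1 N, ∑ n ∈ (Icc 1 N).filter (fun n => n ≠ m), ‖c n‖ ^ 2 * (1 / |(m : ℝ) - n|)) := by
        rw [← Finset.sum_add_distrib, Finset.mul_sum]
        refine Finset.sum_congr rfl fun m _ => ?_
        rw [← Finset.sum_add_distrib, Finset.mul_sum]
        refine Finset.sum_congr rfl fun n _ => ?_
        ring
    _ = (N:ℝ) * (2 * ∑ m ∈ Icc 1 N, ‖c m‖ ^ 2 * ∑ n ∈ (Icc 1 N).filter (fun n => n ≠ m),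
          (1 / |(m : ℝ) - n|)) := by
        rw [hswap, ← two_mul]
        simp only [Finset.mul_sum]
    _ ≤ (N:ℝ) * (2 * ∑ m ∈ Icc 1 N, ‖c m‖ ^ 2 * (2 * (1 + Real.log N))) := by
        gcongr with m hm
        exact sum_inv_abs_sub_le hN hm
    _ = _ := by
        rw [← Finset.sum_mul]; ring

/-! ### (B2) the diagonal sum -/

/-- (B2) `∑ Λ(n)²/n b((log n - α)/a)² = a α ∫ b² + O(α + a)`. -/
theorem sum_vonMangoldt_sq {b : ℝ → ℝ} {K : NNReal} (hb : LipschitzWith K b)
    (hb1 : ∀ v, 1 ≤ |v| → b v = 0) (hbe : ∀ v, b (-v) = b v) : ∃ C : ℝ, 0 < C ∧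
    ∀ (a α : ℝ) (N : ℕ), 1 ≤ a → a ≤ α → α + a ≤ Real.log N →
      |∑ n ∈ Icc 1 N, Λ n ^ 2 / n * b ((Real.log n - α) / a) ^ 2 - a * α * ∫ v, b v ^ 2| ≤
        C * (α + a) := by
  obtain ⟨C1, hC1, hM⟩ := Pool.Agent.ANT.mertens_lip
  obtain ⟨C2, hC2, hP⟩ := Pool.Agent.DirPoly.exists_sum_nonprime_le
  set M : ℝ := 2 * K with hMdef
  have hM0 : 0 ≤ M := by positivity
  have hbM : ∀ v, |b v| ≤ M := by
    intro v
    rcases le_total 1 |v| with h | h
    · rw [hb1 v h, abs_zero]; exact hM0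
    · have h1 := hb.dist_le_mul v 1
      rw [Real.dist_eq, Real.dist_eq, hb1 1 (by simp), sub_zero] at h1
      refine h1.trans ?_
      rw [hMdef, mul_comm]
      gcongr
      rw [abs_le] at h ⊢
      constructor <;> linarith [h.1, h.2]
  have hbc : Continuous b := hb.continuous
  refine ⟨C1 * (2 * M ^ 2 + 4 * M * K) + 2 * C2 * 3 * M ^ 2 + 1, by positivity,
    fun a α N ha hα hN => ?_⟩
  have ha0 : 0 < a := by linarith
  have hαa : 0 ≤ α + a := by linarith
  have hαd : 0 ≤ (α + a) / a := by positivity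
  -- reduction to `N' = ⌈exp (α + a)⌉`
  set N' := ⌈Real.exp (α + a)⌉₊ with hN'
  have hNpos : 0 < N := by
    rcases Nat.eq_zero_or_pos N with h | h
    · subst h
      simp only [Nat.cast_zero, Real.log_zero] at hN
      linarith
    · exact h
  have hNN : N' ≤ N := by
    rw [hN']
    apply Nat.ceil_le.mpr
    rw [← Real.le_log_iff_exp_le (by exact_mod_cast hNpos)]
    exact hN
  have hN'1 : 1 ≤ N' := Nat.one_le_ceil_iff.mpr (Real.exp_pos _)
  have hN'0 : (0:ℝ) < N' := by exact_mod_cast hN'1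
  have hlog1 : α + a ≤ Real.log N' := by
    rw [Real.le_log_iff_exp_le hN'0]
    exact Nat.le_ceil _
  have hlog2 : Real.log N' ≤ 2 * (α + a) := by
    have h1 : (N':ℝ) ≤ Real.exp (α + a) + 1 := (Nat.ceil_lt_add_one (Real.exp_pos _).le).le
    have h2 : (1:ℝ) + (α + a) ≤ Real.exp (α + a) := by
      have := Real.add_one_le_exp (α + a); linarith
    rw [Real.log_le_iff_le_exp hN'0, two_mul, Real.exp_add]
    nlinarith
  set g : ℕ → ℝ := fun n => b ((Real.log n - α) / a) ^ 2 with hg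
  have hg0 : ∀ n, 0 ≤ g n := fun n => sq_nonneg _
  have hgM : ∀ n, g n ≤ M ^ 2 := by
    intro n
    simp only [hg]
    rw [← sq_abs]
    exact pow_le_pow_left₀ (abs_nonneg _) (hbM _) 2
  have hred : ∑ n ∈ Icc 1 N, Λ n ^ 2 / n * g n = ∑ n ∈ Icc 1 N', Λ n ^ 2 / n * g n := by
    symm
    refine Finset.sum_subset (Finset.Icc_subset_Icc_right hNN) fun n hn hn' => ?_
    rw [mem_Icc] at hn hn'
    have h1 : N' < n := by omega
    have h2 : α + a ≤ Real.log n :=
      hlog1.trans (Real.log_le_log hN'0 (by exact_mod_cast h1.le))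
    have h3 : b ((Real.log n - α) / a) = 0 := by
      apply hb1
      have h4 : 1 ≤ (Real.log n - α) / a := by
        rw [le_div_iff₀ ha0]; linarith
      exact h4.trans (le_abs_self _)
    simp only [hg, h3]
    ring
  -- the main term
  set h : ℝ → ℝ := fun u => u * b ((u - α) / a) ^ 2 with hh
  have hL : ∀ u ∈ Set.Icc (α - a) (α + a), ∀ v ∈ Set.Icc (α - a) (α + a),
      |h u - h v| ≤ (M ^ 2 + 2 * M * K * ((α + a) / a)) * |u - v| := by
    intro u hu v hv
    set x := b ((u - α) / a)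
    set y := b ((v - α) / a)
    have hx : |x| ≤ M := hbM _
    have hy : |y| ≤ M := hbM _
    have hxy : |x - y| ≤ K * (|u - v| / a) := by
      have h1 := hb.dist_le_mul ((u - α) / a) ((v - α) / a)
      rw [Real.dist_eq, Real.dist_eq] at h1
      refine h1.trans (le_of_eq ?_)
      rw [← sub_div, abs_div, abs_of_pos ha0]
      ring_nf
    have hv' : |v| ≤ α + a := by
      rw [abs_le]; constructor <;> linarith [hv.1, hv.2]
    have h1 : h u - h v = (u - v) * x ^ 2 + v * ((x + y) * (x - y)) := by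
      simp only [hh]; ring
    rw [h1]
    calc _ ≤ |u - v| * |x| ^ 2 + |v| * ((|x| + |y|) * |x - y|) := by
          refine (abs_add_le _ _).trans ?_
          rw [abs_mul, abs_mul, abs_mul, abs_pow]
          gcongr
          exact abs_add_le _ _
      _ ≤ |u - v| * M ^ 2 + (α + a) * ((M + M) * (K * (|u - v| / a))) := by
          gcongr
      _ = _ := by ring
  have h0 : ∀ u, u ∉ Set.Ioo (α - a) (α + a) → h u = 0 := by
    intro u hu
    have : b ((u - α) / a) = 0 := by
      apply hb1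
      rw [abs_div, abs_of_pos ha0, le_div_iff₀ ha0, one_mul]
      by_contra hlt
      rw [not_le, abs_lt] at hlt
      exact hu ⟨by linarith [hlt.1], by linarith [hlt.2]⟩
    simp only [hh, this]
    ring
  have hmain := hM h (M ^ 2 + 2 * M * K * ((α + a) / a)) (α - a) (α + a) N' (by linarith)
    (by positivity) hN'1 hlog1 hL h0
  have hint : ∫ u in (0:ℝ)..(Real.log N'), h u = a * α * ∫ v, b v ^ 2 := by
    have hle : (0:ℝ) ≤ Real.log N' := by linarith
    rw [intervalIntegral.integral_of_le hle,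
      setIntegral_eq_integral_of_forall_compl_eq_zero (fun u hu => h0 u (fun hu' => hu
        (Set.mem_Ioc.mpr ⟨by linarith [hu'.1], by linarith [hu'.2]⟩)))]
    set G : ℝ → ℝ := fun v => (α + a * v) * b v ^ 2 with hG
    have h1 : h = fun u => G ((u - α) / a) := by
      funext u
      simp only [hh, hG]
      congr 1
      field_simp
      ring
    rw [h1, integral_sub_right_eq_self (fun u => G (u / a)) α, Measure.integral_comp_div,
      abs_of_pos ha0, smul_eq_mul]
    have hcs : HasCompactSupport b := by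
      refine HasCompactSupport.of_support_subset_isCompact (isCompact_Icc (a := -1) (b := 1)) ?_
      intro v hv
      by_contra hv'
      apply hv
      apply hb1
      rw [Set.mem_Icc, ← abs_le, not_le] at hv'
      exact hv'.le
    have hcs2 : HasCompactSupport (fun v => b v ^ 2) := by
      have h4 : (fun v => b v ^ 2) = b * b := by
        funext v; simp [pow_two]
      rw [h4]
      exact hcs.mul_right
    have hi1 : Integrable (fun v => b v ^ 2) :=
      (hbc.pow 2).integrable_of_hasCompactSupport hcs2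
    have hi2 : Integrable (fun v => v * b v ^ 2) :=
      (continuous_id.mul (hbc.pow 2)).integrable_of_hasCompactSupport hcs2.mul_left
    have hodd : ∫ v, v * b v ^ 2 = 0 := by
      have h2 := integral_neg_eq_self (fun v => v * b v ^ 2) volume
      simp only [hbe, neg_mul] at h2
      rw [integral_neg] at h2
      linarith
    have h3 : G = fun v => α * b v ^ 2 + a * (v * b v ^ 2) := by
      funext v; simp only [hG]; ring
    rw [h3, integral_add (hi1.const_mul _) (hi2.const_mul _), integral_const_mul,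
      integral_const_mul, hodd]
    ring
  -- prime powers
  have hpp : |∑ n ∈ Icc 1 N', Λ n ^ 2 / n * g n - ∑ n ∈ Icc 1 N', Λ n / n * h (Real.log n)| ≤
      2 * C2 * (1 + Real.log N') * M ^ 2 := by
    rw [← Finset.sum_sub_distrib]
    have h1 : ∀ n ∈ Icc 1 N', |Λ n ^ 2 / n * g n - Λ n / n * h (Real.log n)| ≤
        (if n.Prime then 0 else Λ n / Real.sqrt n) * (2 * M ^ 2) := by
      intro n hn
      rw [mem_Icc] at hn
      have hn0 : (0:ℝ) < n := by exact_mod_cast hn.1
      have h2 : Λ n ^ 2 / n * g n - Λ n / n * h (Real.log n) =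
          - (Λ n / n * (Real.log n - Λ n) * g n) := by
        simp only [hh, hg]; ring
      rw [h2, abs_neg]
      split_ifs with hp
      · rw [vonMangoldt_apply_prime hp]; simp
      · have h3 : 0 ≤ Real.log n - Λ n := sub_nonneg.mpr vonMangoldt_le_log
        have h4 : 0 ≤ Λ n := vonMangoldt_nonneg
        rw [abs_of_nonneg (by have := hg0 n; positivity)]
        have h5 : Real.log n ≤ 2 * Real.sqrt n := by
          have h6 : Real.log n = 2 * Real.log (Real.sqrt n) := by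
            rw [Real.log_sqrt hn0.le]; ring
          have h7 := Real.log_le_sub_one_of_pos (Real.sqrt_pos.mpr hn0)
          rw [h6]
          linarith
        have h8 : Real.sqrt n ^ 2 = n := Real.sq_sqrt hn0.le
        have h9 : 0 < Real.sqrt n := Real.sqrt_pos.mpr hn0
        calc Λ n / n * (Real.log n - Λ n) * g n ≤ Λ n / n * (2 * Real.sqrt n) * M ^ 2 := by
              have := hg0 n
              have := hgM n
              gcongr
              linarith
          _ = Λ n / Real.sqrt n * (2 * M ^ 2) := by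
              nth_rewrite 1 [← h8]
              field_simp
    calc _ ≤ ∑ n ∈ Icc 1 N', |Λ n ^ 2 / n * g n - Λ n / n * h (Real.log n)| :=
          Finset.abs_sum_le_sum_abs _ _
      _ ≤ ∑ n ∈ Icc 1 N', (if n.Prime then 0 else Λ n / Real.sqrt n) * (2 * M ^ 2) :=
          Finset.sum_le_sum h1
      _ = (∑ n ∈ (Icc 1 N').filter (fun n => ¬ n.Prime), Λ n / Real.sqrt n) * (2 * M ^ 2) := by
          rw [← Finset.sum_mul, Finset.sum_filter]
          congr 1
          refine Finset.sum_congr rfl fun n _ => ?_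
          split_ifs <;> simp_all
      _ ≤ (C2 * (1 + Real.log N')) * (2 * M ^ 2) := by
          gcongr
          exact hP N' hN'1
      _ = _ := by ring
  rw [hred]
  rw [hint] at hmain
  have h1 : 2 * C2 * (1 + Real.log N') * M ^ 2 ≤ 2 * C2 * 3 * M ^ 2 * (α + a) := by
    have h2 : 1 + Real.log N' ≤ 3 * (α + a) := by linarith
    calc _ ≤ 2 * C2 * (3 * (α + a)) * M ^ 2 := by gcongr
      _ = _ := by ring
  have h2 : C1 * (M ^ 2 + 2 * M * K * ((α + a) / a)) * (α + a - (α - a)) ≤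
      C1 * (2 * M ^ 2 + 4 * M * K) * (α + a) := by
    have h3 : C1 * (M ^ 2 + 2 * M * K * ((α + a) / a)) * (α + a - (α - a)) =
        C1 * (2 * M ^ 2 * a + 4 * M * K * (α + a)) := by
      field_simp
      ring
    rw [h3, mul_assoc C1 _ (α + a), add_mul]
    gcongr
    linarith
  calc _ ≤ |∑ n ∈ Icc 1 N', Λ n ^ 2 / n * g n - ∑ n ∈ Icc 1 N', Λ n / n * h (Real.log n)| +
        |∑ n ∈ Icc 1 N', Λ n / n * h (Real.log n) - a * α * ∫ v, b v ^ 2| :=
        abs_sub_le _ _ _
    _ ≤ 2 * C2 * 3 * M ^ 2 * (α + a) + C1 * (2 * M ^ 2 + 4 * M * K) * (α + a) :=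
        add_le_add (hpp.trans h1) (hmain.trans h2)
    _ ≤ _ := by
        have : 0 ≤ α + a := by linarith
        nlinarith

end Pool.Agent.NonLattice
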