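import Pool.Agent.ZGap.Explicit

/-!
# A complex explicit formula for test functions with one-sided spectrum, under RH
-/

namespace Pool.Agent.ZGap.OneSided

open MeasureTheory Real Set FourierTransform ArithmeticFunction Pool.Agent.Hadamard
open Pool.Agent.DirPoly

/-- The test function. -/
noncomputable def ff (B : ℝ → ℂ) (x : ℝ) : ℂ :=
  ∫ ξ : ℝ, B ξ * Complex.exp (-((ξ * x : ℝ) : ℂ) * Complex.I)

/-- The test function on the line `Re s = 3/2`. -/
noncomputable def hh (B : ℝ → ℂ) (u : ℝ) : ℂ :=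
  ∫ ξ : ℝ, B ξ * Complex.exp ((ξ : ℂ) - ((ξ * u : ℝ) : ℂ) * Complex.I)

/-- Hypotheses on the spectral side. -/
structure Adm (B : ℝ → ℂ) (D M : ℝ) : Prop where
  cont : Continuous B
  neg : ∀ ξ, ξ ≤ 0 → B ξ = 0
  big : ∀ ξ, D ≤ ξ → B ξ = 0
  bound : ∀ u, ‖hh B u‖ ≤ M / (1 + u ^ 2) ^ 2

variable {B : ℝ → ℂ} {D M : ℝ}

lemma Adm.M_nonneg (h : Adm B D M) : 0 ≤ M := by
  have := (norm_nonneg _).trans (h.bound 0)
  simpa using this

lemma Adm.hasCompactSupport (h : Adm B D M) : HasCompactSupport B := by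
  refine HasCompactSupport.of_support_subset_isCompact (K := Icc 0 D) isCompact_Icc ?_
  intro ξ hξ
  rw [Function.mem_support] at hξ
  constructor
  · by_contra h1
    push Not at h1
    exact hξ (h.neg ξ h1.le)
  · by_contra h1
    push Not at h1
    exact hξ (h.big ξ h1.le)

lemma Adm.integrable_exp (h : Adm B D M) :
    Integrable (fun ξ : ℝ => B ξ * Complex.exp (ξ : ℂ)) := by
  have h1 := h.cont
  refine Continuous.integrable_of_hasCompactSupport (by fun_prop) ?_
  exact h.hasCompactSupport.mul_right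

lemma Adm.integrable (h : Adm B D M) : Integrable B :=
  h.cont.integrable_of_hasCompactSupport h.hasCompactSupport

lemma Adm.hh_continuous (h : Adm B D M) : Continuous (hh B) := by
  unfold hh
  refine continuous_of_dominated (F := fun (u : ℝ) (ξ : ℝ) =>
    B ξ * Complex.exp ((ξ : ℂ) - ((ξ * u : ℝ) : ℂ) * Complex.I))
    (bound := fun ξ => ‖B ξ * Complex.exp (ξ : ℂ)‖) ?_ ?_ h.integrable_exp.norm ?_
  · intro u
    have h1 := h.cont
    exact Continuous.aestronglyMeasurable (by fun_prop)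
  · intro u
    refine Filter.Eventually.of_forall fun ξ => ?_
    rw [norm_mul, norm_mul, sub_eq_add_neg, Complex.exp_add, norm_mul]
    have : ‖Complex.exp (-(((ξ * u : ℝ) : ℂ) * Complex.I))‖ = 1 := by
      rw [← neg_mul, ← Complex.ofReal_neg]
      exact Complex.norm_exp_ofReal_mul_I _
    rw [this, mul_one]
  · refine Filter.Eventually.of_forall fun ξ => ?_
    fun_prop

lemma integrable_sq_bound : Integrable (fun u : ℝ => 1 / (1 + u ^ 2) ^ 2) := by
  refine integrable_inv_one_add_sq.mono' ?_ (Filter.Eventually.of_forall fun u => ?_)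
  · refine Continuous.aestronglyMeasurable ?_
    refine Continuous.div continuous_const (by fun_prop) fun v => ?_
    positivity
  · rw [Real.norm_of_nonneg (by positivity), ← one_div]
    apply one_div_le_one_div_of_le (by positivity)
    nlinarith [sq_nonneg u, sq_nonneg (u ^ 2)]

lemma Adm.hh_integrable (h : Adm B D M) : Integrable (hh B) := by
  refine (integrable_sq_bound.const_mul M).mono' h.hh_continuous.aestronglyMeasurable
    (Filter.Eventually.of_forall fun u => ?_)
  rw [mul_one_div]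
  exact h.bound u

lemma fourier_eq (w : ℝ) :
    𝓕 (fun ξ : ℝ => B ξ * Complex.exp (ξ : ℂ)) w = hh B (2 * π * w) := by
  rw [Real.fourier_real_eq_integral_exp_smul, hh]
  refine integral_congr_ae (Filter.Eventually.of_forall fun ξ => ?_)
  simp only [smul_eq_mul]
  rw [sub_eq_add_neg, Complex.exp_add]
  have : Complex.exp (↑(-2 * π * ξ * w) * Complex.I) =
      Complex.exp (-(((ξ * (2 * π * w) : ℝ) : ℂ) * Complex.I)) := by
    congr 1; push_cast; ring
  rw [this]
  ring

/-- Fourier inversion. -/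
theorem Adm.inversion (h : Adm B D M) (y : ℝ) :
    ∫ u : ℝ, Complex.exp ((u * y : ℝ) * Complex.I) * hh B u =
      2 * π * (B y * Complex.exp (y : ℂ)) := by
  have hF : 𝓕 (fun ξ : ℝ => B ξ * Complex.exp (ξ : ℂ)) = fun w => hh B (2 * π * w) :=
    funext fun w => fourier_eq w
  have hint : Integrable (𝓕 (fun ξ : ℝ => B ξ * Complex.exp (ξ : ℂ))) := by
    rw [hF]
    exact h.hh_integrable.comp_mul_left' (by positivity)
  have hc := h.cont
  have h2 := Continuous.fourierInv_fourier_eq (f := fun ξ : ℝ => B ξ * Complex.exp (ξ : ℂ))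
    (by fun_prop) h.integrable_exp hint
  have h3 := congrFun h2 y
  rw [hF, Real.fourierInv_eq'] at h3
  have h4 := Measure.integral_comp_mul_left
    (fun u : ℝ => Complex.exp ((u * y : ℝ) * Complex.I) * hh B u) (2 * π)
  have h5 : ∀ w : ℝ, Complex.exp (↑(2 * π * inner ℝ w y) * Complex.I) •
      hh B (2 * π * w) = Complex.exp ((2 * π * w * y : ℝ) * Complex.I) *
        hh B (2 * π * w) := by
    intro w
    rw [smul_eq_mul]
    congr 3
    simp only [RCLike.inner_apply, conj_trivial]
    push_cast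
    ring
  simp_rw [h5] at h3
  rw [h3] at h4
  rw [abs_of_pos (by positivity), Complex.real_smul] at h4
  have h7 : (π : ℂ) ≠ 0 := by exact_mod_cast Real.pi_ne_zero
  rw [h4]
  set J := ∫ u : ℝ, Complex.exp ((u * y : ℝ) * Complex.I) * hh B u with hJ
  push_cast
  field_simp

lemma Adm.integral_hh (h : Adm B D M) : ∫ u : ℝ, hh B u = 0 := by
  have h1 := h.inversion 0
  simpa [h.neg 0 le_rfl] using h1

lemma cauchy_integral (y : ℝ) :
    ∫ η in Ioi (0:ℝ), Complex.exp (-(1 + y * Complex.I) * η) = 1 / (1 + y * Complex.I) := by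
  have h1 : (-(1 + y * Complex.I) : ℂ).re < 0 := by simp
  have h2 := integral_exp_mul_complex_Ioi h1 0
  rw [h2]
  simp only [Complex.ofReal_zero, mul_zero, Complex.exp_zero]
  rw [neg_div_neg_eq]

lemma norm_one_add_sq (y : ℝ) : ‖(1 + y * Complex.I : ℂ)‖ ^ 2 = 1 + y ^ 2 := by
  rw [Complex.sq_norm, Complex.normSq_apply]
  simp
  ring

lemma one_add_ne (y : ℝ) : (1 + y * Complex.I : ℂ) ≠ 0 := by
  intro h
  have := norm_one_add_sq y
  rw [h] at this
  simp at this
  nlinarith [sq_nonneg y]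

lemma norm_exp_neg_one_add (y η : ℝ) :
    ‖Complex.exp (-(1 + y * Complex.I) * η)‖ = Real.exp (-η) := by
  rw [Complex.norm_exp]
  congr 1
  simp

/-- Cauchy kernel representation. -/
theorem Adm.cauchy (h : Adm B D M) (x : ℝ) :
    ∫ u : ℝ, hh B u * (1 / (1 + ((x - u : ℝ) : ℂ) * Complex.I)) = 2 * π * ff B x := by
  have e1 : ∀ u : ℝ, hh B u * (1 / (1 + ((x - u : ℝ) : ℂ) * Complex.I)) =
      ∫ η in Ioi (0:ℝ), hh B u * Complex.exp (-(1 + ((x - u : ℝ) : ℂ) * Complex.I) * η) := by
    intro u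
    rw [MeasureTheory.integral_const_mul, cauchy_integral]
  simp_rw [e1]
  rw [integral_integral_swap]
  · have e2 : ∀ η : ℝ, ∫ u : ℝ, hh B u *
        Complex.exp (-(1 + ((x - u : ℝ) : ℂ) * Complex.I) * η) =
        2 * π * (B η * Complex.exp (-((η * x : ℝ) : ℂ) * Complex.I)) := by
      intro η
      have e3 : ∀ u : ℝ, hh B u * Complex.exp (-(1 + ((x - u : ℝ) : ℂ) * Complex.I) * η) =
          Complex.exp (-(η : ℂ) - ((η * x : ℝ) : ℂ) * Complex.I) *
            (Complex.exp ((u * η : ℝ) * Complex.I) * hh B u) := by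
        intro u
        rw [← mul_assoc, ← Complex.exp_add, mul_comm]
        congr 2
        push_cast; ring
      simp_rw [e3]
      rw [MeasureTheory.integral_const_mul, h.inversion]
      have e4 : Complex.exp (-(η : ℂ) - ((η * x : ℝ) : ℂ) * Complex.I) * Complex.exp (η : ℂ) =
          Complex.exp (-((η * x : ℝ) : ℂ) * Complex.I) := by
        rw [← Complex.exp_add]; congr 1; ring
      rw [← e4]; ring
    simp_rw [e2]
    rw [MeasureTheory.integral_const_mul]
    congr 1
    unfold ff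
    apply setIntegral_eq_integral_of_forall_compl_eq_zero
    intro v hv
    have : v ≤ 0 := by
      by_contra h1
      push Not at h1
      exact hv h1
    rw [h.neg v this, zero_mul]
  · have h2 : Integrable (fun η : ℝ => Real.exp (-η)) (volume.restrict (Ioi 0)) :=
      integrableOn_exp_neg_Ioi 0
    have h3 := h.hh_integrable.norm.mul_prod h2
    refine h3.mono' ?_ (Filter.Eventually.of_forall fun z => ?_)
    · apply Continuous.aestronglyMeasurable
      have := h.hh_continuous
      simp only [Function.uncurry_def]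
      fun_prop
    · simp only [Function.uncurry_def]
      rw [norm_mul, norm_exp_neg_one_add]

lemma sv_sub (hRH : RiemannHypothesis) (v : ℝ) (ρ : ntz) :
    sv v - (ρ : ℂ) = 1 + ((v - (ρ : ℂ).im : ℝ) : ℂ) * Complex.I := by
  have h := re_half hRH ρ
  apply Complex.ext
  · simp [sv, h]; norm_num
  · simp [sv]

lemma sv_notMem (v : ℝ) : sv v ∉ ntz := by
  rintro ⟨_, _, h3⟩
  rw [sv_re] at h3
  norm_num at h3

/-- Bound for the kernel difference. -/
lemma norm_kernel_sub_le (x u : ℝ) :
    ‖1 / (1 + ((x - u : ℝ) : ℂ) * Complex.I) - 1 / (1 + (x : ℂ) * Complex.I)‖ ≤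
      2 * (1 + u ^ 2) / (1 + x ^ 2) := by
  have h1 := one_add_ne (x - u)
  have h2 := one_add_ne x
  have e1 : 1 / (1 + ((x - u : ℝ) : ℂ) * Complex.I) - 1 / (1 + (x : ℂ) * Complex.I) =
      ((u : ℂ) * Complex.I) / ((1 + ((x - u : ℝ) : ℂ) * Complex.I) * (1 + (x : ℂ) * Complex.I)) := by
    rw [div_sub_div _ _ h1 h2]
    congr 1
    push_cast; ring
  rw [e1, norm_div, norm_mul, norm_mul, Complex.norm_I, mul_one, Complex.norm_real,
    Real.norm_eq_abs]
  have hn1 := norm_one_add_sq (x - u)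
  have hn2 := norm_one_add_sq x
  set p := ‖(1 + ((x - u : ℝ) : ℂ) * Complex.I)‖ with hp
  set q := ‖(1 + (x : ℂ) * Complex.I)‖ with hq
  have hp0 : 0 < p := norm_pos_iff.mpr h1
  have hq0 : 0 < q := norm_pos_iff.mpr h2
  rw [div_le_div_iff₀ (by positivity) (by positivity), ← hn2]
  -- |u| q^2 ≤ 2 (1+u^2) p q
  have h3 : q ^ 2 ≤ 2 * (1 + u ^ 2) * p ^ 2 := by
    rw [hn1, hn2]
    nlinarith [sq_nonneg (x - 2 * u), sq_nonneg (u * (x - u)), sq_nonneg (x - u), sq_nonneg u]
  have h4 : |u| * q ≤ 2 * (1 + u ^ 2) * p := by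
    apply le_of_sq_le_sq ?_ (by positivity) |> fun h => h
    calc (|u| * q) ^ 2 = u ^ 2 * q ^ 2 := by rw [mul_pow, sq_abs]
      _ ≤ u ^ 2 * (2 * (1 + u ^ 2) * p ^ 2) := by gcongr
      _ ≤ (2 * (1 + u ^ 2) * p) ^ 2 := by
        have : 0 ≤ p ^ 2 * (1 + u ^ 2) := by positivity
        nlinarith
  calc |u| * q ^ 2 = (|u| * q) * q := by ring
    _ ≤ (2 * (1 + u ^ 2) * p) * q := by gcongr
    _ = _ := by ring

lemma kernel_continuous (x : ℝ) :
    Continuous (fun u : ℝ => 1 / (1 + ((x - u : ℝ) : ℂ) * Complex.I) -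
      1 / (1 + (x : ℂ) * Complex.I)) := by
  refine Continuous.sub ?_ continuous_const
  refine Continuous.div continuous_const (by fun_prop) fun u => one_add_ne _

lemma Adm.norm_mul_kernel_le (h : Adm B D M) (x u : ℝ) :
    ‖hh B u * (1 / (1 + ((x - u : ℝ) : ℂ) * Complex.I) - 1 / (1 + (x : ℂ) * Complex.I))‖ ≤
      2 * M / (1 + x ^ 2) * (1 + u ^ 2)⁻¹ := by
  have hM := h.M_nonneg
  rw [norm_mul]
  calc _ ≤ M / (1 + u ^ 2) ^ 2 * (2 * (1 + u ^ 2) / (1 + x ^ 2)) := by
        have h1 := h.bound u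
        have h2 := norm_kernel_sub_le x u
        gcongr
    _ = _ := by
        have : (1 + u ^ 2) ≠ 0 := by positivity
        field_simp

lemma Adm.kernel_integrable (h : Adm B D M) (x : ℝ) :
    Integrable (fun u : ℝ => hh B u * (1 / (1 + ((x - u : ℝ) : ℂ) * Complex.I) -
      1 / (1 + (x : ℂ) * Complex.I))) := by
  refine (integrable_inv_one_add_sq.const_mul (2 * M / (1 + x ^ 2))).mono'
    (h.hh_continuous.mul (kernel_continuous x)).aestronglyMeasurable
    (Filter.Eventually.of_forall fun u => h.norm_mul_kernel_le x u)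

/-- The sum over zeros as an integral on the line `3/2`. -/
theorem Adm.hasSum_zeros (hRH : RiemannHypothesis) (h : Adm B D M) (t : ℝ) :
    HasSum (fun ρ : ntz => (mult ρ : ℂ) * (2 * π * ff B (t - (ρ : ℂ).im)))
      (∫ u : ℝ, hh B u * (logDeriv xiF (sv (t - u)) - logDeriv xiF (sv t))) := by
  have hM := h.M_nonneg
  have h2 := hasSum_integral_of_summable_integral_norm (μ := volume)
    (F := fun (ρ : ntz) (u : ℝ) => (mult ρ : ℂ) *
      (hh B u * (1 / (1 + (((t - (ρ : ℂ).im) - u : ℝ) : ℂ) * Complex.I) -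
        1 / (1 + ((t - (ρ : ℂ).im : ℝ) : ℂ) * Complex.I)))) ?_ ?_
  · have e1 : ∀ ρ : ntz, ∫ u : ℝ, (mult ρ : ℂ) *
        (hh B u * (1 / (1 + (((t - (ρ : ℂ).im) - u : ℝ) : ℂ) * Complex.I) -
          1 / (1 + ((t - (ρ : ℂ).im : ℝ) : ℂ) * Complex.I))) =
        (mult ρ : ℂ) * (2 * π * ff B (t - (ρ : ℂ).im)) := by
      intro ρ
      rw [MeasureTheory.integral_const_mul]
      congr 1
      have hi1 : Integrable (fun u : ℝ => hh B u *
          (1 / (1 + (((t - (ρ : ℂ).im) - u : ℝ) : ℂ) * Complex.I))) := by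
        have := (h.kernel_integrable (t - (ρ : ℂ).im)).add
          (h.hh_integrable.mul_const (1 / (1 + ((t - (ρ : ℂ).im : ℝ) : ℂ) * Complex.I)))
        refine this.congr (Filter.Eventually.of_forall fun u => ?_)
        simp only [Pi.add_apply]
        ring
      simp_rw [mul_sub]
      rw [integral_sub hi1 (h.hh_integrable.mul_const _), MeasureTheory.integral_mul_const,
        h.integral_hh, zero_mul, sub_zero, h.cauchy]
    have e2 : ∀ u : ℝ, ∑' ρ : ntz, (mult ρ : ℂ) *
        (hh B u * (1 / (1 + (((t - (ρ : ℂ).im) - u : ℝ) : ℂ) * Complex.I) -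
          1 / (1 + ((t - (ρ : ℂ).im : ℝ) : ℂ) * Complex.I))) =
        hh B u * (logDeriv xiF (sv (t - u)) - logDeriv xiF (sv t)) := by
      intro u
      rw [← (hasSum_complex_zeros (sv_notMem (t - u)) (sv_notMem t)).tsum_eq, ← tsum_mul_left]
      refine tsum_congr fun ρ => ?_
      rw [sv_sub hRH, sv_sub hRH]
      have : t - (ρ : ℂ).im - u = t - u - (ρ : ℂ).im := by ring
      rw [this]
      ring
    simp_rw [e1, e2] at h2
    exact h2
  · intro ρ
    exact (h.kernel_integrable _).const_mul _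
  · have h3 := (hasSum_poisson hRH t).summable.mul_left (2 * M * π)
    refine Summable.of_nonneg_of_le (fun ρ => ?_) (fun ρ => ?_) h3
    · exact integral_nonneg fun u => norm_nonneg _
    · have e3 : ∀ u : ℝ, ‖(mult ρ : ℂ) *
          (hh B u * (1 / (1 + (((t - (ρ : ℂ).im) - u : ℝ) : ℂ) * Complex.I) -
          1 / (1 + ((t - (ρ : ℂ).im : ℝ) : ℂ) * Complex.I)))‖ =
          (mult ρ : ℝ) * ‖hh B u * (1 / (1 + (((t - (ρ : ℂ).im) - u : ℝ) : ℂ) * Complex.I) -
          1 / (1 + ((t - (ρ : ℂ).im : ℝ) : ℂ) * Complex.I))‖ := by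
        intro u
        rw [norm_mul (mult (ρ : ℂ) : ℂ), Complex.norm_natCast]
      simp_rw [e3]
      rw [MeasureTheory.integral_const_mul]
      calc _ ≤ (mult ρ : ℝ) * (∫ u : ℝ, 2 * M / (1 + (t - (ρ : ℂ).im) ^ 2) * (1 + u ^ 2)⁻¹) := by
            gcongr ?_ * ?_
            refine integral_mono (h.kernel_integrable _).norm
              (integrable_inv_one_add_sq.const_mul _) fun u => ?_
            exact h.norm_mul_kernel_le _ u
        _ = _ := by
            rw [MeasureTheory.integral_const_mul, integral_univ_inv_one_add_sq]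
            ring

lemma hasSum_zeta (v : ℝ) :
    HasSum (fun n : ℕ => LSeries.term (fun n => ((vonMangoldt n : ℝ) : ℂ)) (sv v) n)
      (-(logDeriv riemannZeta (sv v))) := by
  have hs : 1 < (sv v).re := by rw [sv_re]; norm_num
  have h1 := LSeriesSummable_vonMangoldt hs
  have h2 := h1.hasSum
  have h3 : ∑' n, LSeries.term (fun n => ((vonMangoldt n : ℝ) : ℂ)) (sv v) n =
      -(logDeriv riemannZeta (sv v)) := by
    have := LSeries_vonMangoldt_eq_deriv_riemannZeta_div hs
    rw [LSeries] at this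
    rw [this, logDeriv_apply, neg_div]
  rw [← h3]
  exact h2

lemma term_shift (t u : ℝ) (n : ℕ) :
    LSeries.term (fun n => ((vonMangoldt n : ℝ) : ℂ)) (sv (t - u)) n =
      LSeries.term (fun n => ((vonMangoldt n : ℝ) : ℂ)) (sv t) n *
        Complex.exp ((u * Real.log n : ℝ) * Complex.I) := by
  rcases Nat.eq_zero_or_pos n with h0 | h0
  · rw [h0]; simp
  · rw [LSeries.term_of_ne_zero (by omega), LSeries.term_of_ne_zero (by omega)]
    have hn0 : (n : ℂ) ≠ 0 := by exact_mod_cast h0.ne'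
    rw [Complex.cpow_def_of_ne_zero hn0, Complex.cpow_def_of_ne_zero hn0, ← Complex.natCast_log,
      div_eq_mul_inv, div_eq_mul_inv, ← Complex.exp_neg, ← Complex.exp_neg, mul_assoc,
      ← Complex.exp_add]
    congr 2
    unfold sv
    push_cast; ring

lemma norm_term_le (v : ℝ) (n : ℕ) :
    ‖LSeries.term (fun n => ((vonMangoldt n : ℝ) : ℂ)) (sv v) n‖ =
      ‖LSeries.term (fun n => ((vonMangoldt n : ℝ) : ℂ)) (sv 0) n‖ := by
  rw [LSeries.norm_term_eq, LSeries.norm_term_eq, sv_re, sv_re]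

lemma term_mul_exp (t : ℝ) {n : ℕ} (hn : 1 ≤ n) :
    LSeries.term (fun n => ((vonMangoldt n : ℝ) : ℂ)) (sv t) n * Complex.exp ((Real.log n : ℝ) : ℂ) =
      (vonMangoldt n : ℂ) * (n : ℂ) ^ (-(1 / 2 + t * Complex.I) : ℂ) := by
  have hn0 : (n : ℂ) ≠ 0 := by exact_mod_cast (by omega : n ≠ 0)
  rw [LSeries.term_of_ne_zero (by omega), Complex.cpow_def_of_ne_zero hn0,
    Complex.cpow_def_of_ne_zero hn0, ← Complex.natCast_log, div_eq_mul_inv, ← Complex.exp_neg,
    mul_assoc, ← Complex.exp_add]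
  congr 2
  unfold sv
  push_cast; ring

/-- The prime side. -/
theorem Adm.prime_side (h : Adm B D M) {x : ℕ} (hDx : Real.exp D ≤ x + 1) (t : ℝ) :
    Integrable (fun u : ℝ => hh B u * logDeriv riemannZeta (sv (t - u))) ∧
    ∫ u : ℝ, hh B u * logDeriv riemannZeta (sv (t - u)) =
      -(2 * π * vmPoly (fun n => B (Real.log n)) x t) := by
  have hs0 : 1 < (sv 0).re := by rw [sv_re]; norm_num
  have hsum0 : Summable (fun n : ℕ =>
      ‖LSeries.term (fun n => ((vonMangoldt n : ℝ) : ℂ)) (sv 0) n‖) :=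
    (LSeriesSummable_vonMangoldt hs0).norm
  have hnormeq : ∀ (n : ℕ) (u : ℝ),
      ‖LSeries.term (fun n => ((vonMangoldt n : ℝ) : ℂ)) (sv t) n *
        (Complex.exp ((u * Real.log n : ℝ) * Complex.I) * hh B u)‖ =
      ‖LSeries.term (fun n => ((vonMangoldt n : ℝ) : ℂ)) (sv 0) n‖ * ‖hh B u‖ := by
    intro n u
    rw [norm_mul, norm_mul, Complex.norm_exp_ofReal_mul_I, one_mul, norm_term_le]
  have hint : ∀ n : ℕ, Integrable (fun u : ℝ =>
      LSeries.term (fun n => ((vonMangoldt n : ℝ) : ℂ)) (sv t) n *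
        (Complex.exp ((u * Real.log n : ℝ) * Complex.I) * hh B u)) := by
    intro n
    have hc := h.hh_continuous
    refine (h.hh_integrable.norm.const_mul
      ‖LSeries.term (fun n => ((vonMangoldt n : ℝ) : ℂ)) (sv 0) n‖).mono'
      (Continuous.aestronglyMeasurable (by fun_prop)) (Filter.Eventually.of_forall fun u => ?_)
    rw [hnormeq]
  have hsumi : Summable (fun n : ℕ => ∫ u : ℝ,
      ‖LSeries.term (fun n => ((vonMangoldt n : ℝ) : ℂ)) (sv t) n *
        (Complex.exp ((u * Real.log n : ℝ) * Complex.I) * hh B u)‖) := by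
    simp_rw [hnormeq, MeasureTheory.integral_const_mul]
    exact hsum0.mul_right _
  have h2 := hasSum_integral_of_summable_integral_norm (μ := volume) hint hsumi
  have e2 : ∀ u : ℝ, ∑' n : ℕ, LSeries.term (fun n => ((vonMangoldt n : ℝ) : ℂ)) (sv t) n *
        (Complex.exp ((u * Real.log n : ℝ) * Complex.I) * hh B u) =
      -(hh B u * logDeriv riemannZeta (sv (t - u))) := by
    intro u
    have h3 := (hasSum_zeta (t - u)).mul_left (hh B u)
    rw [mul_neg] at h3
    rw [← h3.tsum_eq]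
    refine tsum_congr fun n => ?_
    rw [term_shift]
    ring
  have e1 : ∀ n : ℕ, ∫ u : ℝ, LSeries.term (fun n => ((vonMangoldt n : ℝ) : ℂ)) (sv t) n *
        (Complex.exp ((u * Real.log n : ℝ) * Complex.I) * hh B u) =
      if n ∈ Finset.Icc 1 x then 2 * π * ((vonMangoldt n : ℂ) * B (Real.log n) *
        (n : ℂ) ^ (-(1 / 2 + t * Complex.I) : ℂ)) else 0 := by
    intro n
    rw [MeasureTheory.integral_const_mul, h.inversion]
    rcases Nat.eq_zero_or_pos n with h0 | h0
    · rw [h0]; simp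
    · split_ifs with hn
      · have := term_mul_exp t h0
        calc _ = 2 * π * (B (Real.log n) *
            (LSeries.term (fun n => ((vonMangoldt n : ℝ) : ℂ)) (sv t) n *
              Complex.exp ((Real.log n : ℝ) : ℂ))) := by ring
          _ = _ := by rw [this]; ring
      · rw [Finset.mem_Icc] at hn
        have hxn : x + 1 ≤ n := by omega
        have h5 : D ≤ Real.log n := by
          rw [Real.le_log_iff_exp_le (by exact_mod_cast h0)]
          refine hDx.trans ?_
          exact_mod_cast hxn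
        rw [h.big _ h5]
        ring
  have hint2 : Integrable (fun u : ℝ => hh B u * logDeriv riemannZeta (sv (t - u))) := by
    -- dominated by the sum of the series
    have hmeas : AEStronglyMeasurable
        (fun u : ℝ => hh B u * logDeriv riemannZeta (sv (t - u))) volume := by
      have hcz : Continuous (fun u : ℝ => logDeriv riemannZeta (sv (t - u))) := by
        have hd : ∀ u : ℝ, DifferentiableAt ℂ riemannZeta (sv (t - u)) := fun u => by
          apply differentiableAt_riemannZeta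
          intro h1
          have := congrArg Complex.re h1
          rw [sv_re] at this
          norm_num at this
        have hU : IsOpen {z : ℂ | z ≠ 1} := isOpen_ne
        have hdo : DifferentiableOn ℂ riemannZeta {z : ℂ | z ≠ 1} := fun z hz =>
          (differentiableAt_riemannZeta hz).differentiableWithinAt
        have hdd := (hdo.deriv hU).continuousOn
        have hcs : Continuous (fun u : ℝ => sv (t - u)) := sv_continuous.comp (by fun_prop)
        have hne : ∀ u : ℝ, sv (t - u) ≠ 1 := fun u h1 => by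
          have := congrArg Complex.re h1
          rw [sv_re] at this
          norm_num at this
        have hc1 : Continuous (fun u : ℝ => deriv riemannZeta (sv (t - u))) :=
          hdd.comp_continuous hcs hne
        have hc2 : Continuous (fun u : ℝ => riemannZeta (sv (t - u))) :=
          hdo.continuousOn.comp_continuous hcs hne
        simp only [logDeriv_apply]
        refine hc1.div hc2 fun u => ?_
        apply riemannZeta_ne_zero_of_one_le_re
        rw [sv_re]; norm_num
      exact (h.hh_continuous.mul hcz).aestronglyMeasurable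
    refine (h.hh_integrable.norm.mul_const
      (∑' n : ℕ, ‖LSeries.term (fun n => ((vonMangoldt n : ℝ) : ℂ)) (sv 0) n‖)).mono' hmeas
      (Filter.Eventually.of_forall fun u => ?_)
    rw [norm_mul]
    gcongr
    have h3 := hasSum_zeta (t - u)
    rw [← norm_neg, ← h3.tsum_eq]
    calc _ ≤ ∑' n : ℕ, ‖LSeries.term (fun n => ((vonMangoldt n : ℝ) : ℂ)) (sv (t - u)) n‖ := by
          apply norm_tsum_le_tsum_norm
          exact h3.summable.norm
      _ = _ := tsum_congr fun n => norm_term_le _ n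
  refine ⟨hint2, ?_⟩
  simp_rw [e1, e2] at h2
  rw [MeasureTheory.integral_neg] at h2
  have h6 : HasSum (fun n : ℕ =>
    if n ∈ Finset.Icc 1 x then 2 * π * ((vonMangoldt n : ℂ) * B (Real.log n) *
        (n : ℂ) ^ (-(1 / 2 + t * Complex.I) : ℂ)) else 0)
        (∑ n ∈ Finset.Icc 1 x, if n ∈ Finset.Icc 1 x then
          2 * π * ((vonMangoldt n : ℂ) * B (Real.log n) *
        (n : ℂ) ^ (-(1 / 2 + t * Complex.I) : ℂ)) else 0) :=
    hasSum_sum_of_ne_finset_zero (fun n hn => if_neg hn)
  have h7 := h2.unique h6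
  rw [neg_eq_iff_eq_neg] at h7
  rw [h7]
  congr 1
  unfold vmPoly
  rw [Finset.mul_sum]
  refine Finset.sum_congr rfl fun n hn => ?_
  rw [if_pos hn]

/-- Gamma and pole part. -/
noncomputable def GG (v : ℝ) : ℂ :=
  1 / sv v + 1 / (sv v - 1) + logDeriv Complex.Gamma (sv v / 2) / 2

lemma sv_half_re (v : ℝ) : 0 < (sv v / 2).re := by
  have : (sv v / 2).re = 3 / 4 := by simp [sv]; norm_num
  rw [this]; norm_num

lemma norm_sv_ge (v : ℝ) : (1 + |v|) / 2 ≤ ‖sv v‖ := by
  have h1 := norm_sv_half_ge v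
  have h2 := norm_sv_half_ge' v
  have e : ‖sv v / 2‖ = ‖sv v‖ / 2 := by rw [norm_div]; norm_num
  rw [e] at h1 h2
  linarith

lemma norm_sv_sub_one_ge (v : ℝ) : (1 + |v|) / 4 ≤ ‖sv v - 1‖ := by
  have h1 : ‖sv v - 1‖ ^ 2 = 1 / 4 + v ^ 2 := by
    rw [Complex.sq_norm, Complex.normSq_apply, Complex.sub_re, Complex.sub_im, sv_re, sv_im]
    norm_num
    ring
  apply le_of_sq_le_sq ?_ (norm_nonneg _) |> fun h => h
  rw [h1]
  have := sq_abs v
  nlinarith [abs_nonneg v, sq_nonneg (|v| - 1)]

lemma one_add_abs_inv_le {t : ℝ} (ht : 1 ≤ t) (u : ℝ) :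
    1 / (1 + |t - u|) ≤ (1 + |u|) / t := by
  rw [div_le_div_iff₀ (by positivity) (by linarith)]
  have h1 : t ≤ |t - u| + |u| := by
    have := abs_add_le (t - u) u
    rw [sub_add_cancel, abs_of_pos (by linarith : 0 < t)] at this
    exact this
  nlinarith [abs_nonneg (t - u), abs_nonneg u, mul_nonneg (abs_nonneg (t - u)) (abs_nonneg u)]

lemma log_sv_hasDerivAt (v : ℝ) :
    HasDerivAt (fun v : ℝ => Complex.log (sv v / 2)) (Complex.I / sv v) v := by
  have h1 : HasDerivAt (fun v : ℝ => sv v / 2) (Complex.I / 2) v := by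
    unfold sv
    have : HasDerivAt (fun v : ℝ => (3 / 2 + (v : ℂ) * Complex.I)) (1 * Complex.I) v :=
      ((hasDerivAt_id v).ofReal_comp.mul_const Complex.I).const_add (3 / 2)
    rw [one_mul] at this
    exact this.div_const 2
  have hslit : sv v / 2 ∈ Complex.slitPlane := Or.inl (sv_half_re v)
  refine (h1.clog_real hslit).congr_deriv ?_
  have : sv v ≠ 0 := by
    intro h
    have := sv_half_re v
    rw [h] at this
    simp at this
  field_simp

lemma norm_log_sub_le {t : ℝ} (ht : 1 ≤ t) (u : ℝ) :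
    ‖Complex.log (sv (t - u) / 2) - Complex.log (sv t / 2)‖ ≤ 4 * (|u| + u ^ 2) / t := by
  have ht0 : 0 < t := by linarith
  have hd : ∀ v ∈ Set.uIcc (t - u) t, HasDerivWithinAt (fun v : ℝ => Complex.log (sv v / 2))
      (Complex.I / sv v) (Set.uIcc (t - u) t) v := fun v _ => (log_sv_hasDerivAt v).hasDerivWithinAt
  rcases le_or_gt |u| (t / 2) with hu | hu
  · have hb : ∀ v ∈ Set.uIcc (t - u) t, ‖Complex.I / sv v‖ ≤ 4 / t := by
      intro v hv
      have hv2 : t / 2 ≤ v := by
        rw [Set.mem_uIcc] at hv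
        have := abs_le.mp hu
        rcases hv with h | h <;> linarith [h.1, h.2, this.1, this.2]
      rw [norm_div, Complex.norm_I]
      have h1 := norm_sv_ge v
      have h2 : v ≤ |v| := le_abs_self v
      rw [div_le_div_iff₀ (by linarith [abs_nonneg v]) ht0]
      linarith
    have h1 := (convex_uIcc (t - u) t).norm_image_sub_le_of_norm_hasDerivWithin_le hd hb
      (Set.right_mem_uIcc) (Set.left_mem_uIcc)
    refine h1.trans ?_
    have e : t - u - t = -u := by ring
    rw [e, norm_neg, Real.norm_eq_abs, div_mul_eq_mul_div]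
    gcongr
    nlinarith [sq_nonneg u]
  · have hb : ∀ v ∈ Set.uIcc (t - u) t, ‖Complex.I / sv v‖ ≤ 2 := by
      intro v hv
      rw [norm_div, Complex.norm_I]
      have h1 := norm_sv_ge v
      rw [div_le_iff₀ (by linarith [abs_nonneg v])]
      linarith [abs_nonneg v]
    have h1 := (convex_uIcc (t - u) t).norm_image_sub_le_of_norm_hasDerivWithin_le hd hb
      (Set.right_mem_uIcc) (Set.left_mem_uIcc)
    refine h1.trans ?_
    have e : t - u - t = -u := by ring
    rw [e, norm_neg, Real.norm_eq_abs]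
    rw [le_div_iff₀ ht0]
    have h2 := sq_abs u
    nlinarith [abs_nonneg u]

lemma norm_GG_sub_le {t : ℝ} (ht : 1 ≤ t) (u : ℝ) :
    ‖GG (t - u) - GG t‖ ≤ 64 * (1 + u ^ 2) / t := by
  have ht0 : 0 < t := by linarith
  have habs : |u| ≤ (1 + u ^ 2) / 2 := by nlinarith [sq_abs u, sq_nonneg (|u| - 1)]
  -- a uniform bound for the small parts
  have hsmall : ∀ v : ℝ, ‖1 / sv v‖ + ‖1 / (sv v - 1)‖ +
      ‖(logDeriv Complex.Gamma (sv v / 2) - Complex.log (sv v / 2)) / 2‖ ≤ 22 / (1 + |v|) := by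
    intro v
    have hv := abs_nonneg v
    have h1 := norm_sv_ge v
    have h2 := norm_sv_sub_one_ge v
    have h3 := norm_digamma_sub_log_le (sv_half_re v)
    have e : ‖sv v / 2‖ = ‖sv v‖ / 2 := by rw [norm_div]; norm_num
    have h4 := norm_sv_half_ge v
    rw [e] at h3 h4
    have p1 : ‖1 / sv v‖ ≤ 2 / (1 + |v|) := by
      rw [norm_div, norm_one, div_le_div_iff₀ (by linarith) (by linarith)]
      linarith
    have p2 : ‖1 / (sv v - 1)‖ ≤ 4 / (1 + |v|) := by
      rw [norm_div, norm_one, div_le_div_iff₀ (by linarith) (by linarith)]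
      linarith
    have p3 : ‖(logDeriv Complex.Gamma (sv v / 2) - Complex.log (sv v / 2)) / 2‖ ≤
        16 / (1 + |v|) := by
      rw [norm_div]
      have e2 : ‖(2:ℂ)‖ = 2 := by norm_num
      rw [e2]
      set r := ‖sv v‖ with hr
      have hr0 : 0 < r := by linarith
      have h5 : 2 / (r / 2) ^ 2 ≤ 3 * (2 / (r / 2)) := by
        rw [div_le_iff₀ (by positivity)]
        have : 3 * (2 / (r / 2)) * (r / 2) ^ 2 = 3 * r := by field_simp
        rw [this]; linarith
      have h6 : 2 / (r / 2) ≤ 8 / (1 + |v|) := by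
        rw [div_le_div_iff₀ (by positivity) (by linarith)]
        linarith
      have h7 : 0 ≤ 1 / (1 + |v|) := by positivity
      have h8 : (8:ℝ) / (1 + |v|) = 8 * (1 / (1 + |v|)) := by ring
      have h9 : (16:ℝ) / (1 + |v|) = 16 * (1 / (1 + |v|)) := by ring
      rw [h9]
      rw [h8] at h6
      linarith
    have e3 : (22:ℝ) / (1 + |v|) = 2 / (1 + |v|) + 4 / (1 + |v|) + 16 / (1 + |v|) := by ring
    rw [e3]
    linarith
  have e1 : GG (t - u) - GG t =
      ((1 / sv (t - u) + 1 / (sv (t - u) - 1) + (logDeriv Complex.Gamma (sv (t - u) / 2) -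
        Complex.log (sv (t - u) / 2)) / 2) -
      (1 / sv t + 1 / (sv t - 1) + (logDeriv Complex.Gamma (sv t / 2) -
        Complex.log (sv t / 2)) / 2)) +
      (Complex.log (sv (t - u) / 2) - Complex.log (sv t / 2)) / 2 := by
    unfold GG; ring
  rw [e1]
  have q1 := hsmall (t - u)
  have q2 := hsmall t
  have q3 := norm_log_sub_le ht u
  have q4 := one_add_abs_inv_le ht u
  have q5 : 1 / (1 + |t|) ≤ 1 / t := by
    rw [abs_of_pos ht0]
    apply one_div_le_one_div_of_le ht0
    linarith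
  have q6 : 22 / (1 + |t - u|) ≤ 22 * ((1 + |u|) / t) := by
    calc _ = 22 * (1 / (1 + |t - u|)) := by ring
      _ ≤ _ := by gcongr
  have q7 : 22 / (1 + |t|) ≤ 22 * (1 / t) := by
    calc _ = 22 * (1 / (1 + |t|)) := by ring
      _ ≤ _ := by gcongr
  have n3 : ∀ a b c : ℂ, ‖a + b + c‖ ≤ ‖a‖ + ‖b‖ + ‖c‖ := fun a b c =>
    (norm_add_le _ _).trans (by gcongr; exact norm_add_le _ _)
  have r1 := n3 (1 / sv (t - u)) (1 / (sv (t - u) - 1)) ((logDeriv Complex.Gamma (sv (t - u) / 2) -
        Complex.log (sv (t - u) / 2)) / 2)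
  have r2 := n3 (1 / sv t) (1 / (sv t - 1)) ((logDeriv Complex.Gamma (sv t / 2) -
        Complex.log (sv t / 2)) / 2)
  have r3 : ‖(Complex.log (sv (t - u) / 2) - Complex.log (sv t / 2)) / 2‖ ≤
      2 * (|u| + u ^ 2) / t := by
    rw [norm_div]
    have e2 : ‖(2:ℂ)‖ = 2 := by norm_num
    rw [e2, div_le_iff₀ (by norm_num)]
    refine q3.trans (le_of_eq ?_)
    ring
  refine (norm_add_le _ _).trans ?_
  refine (add_le_add_left (norm_sub_le _ _) _).trans ?_
  have hfin : 22 * ((1 + |u|) / t) + 22 * (1 / t) + 2 * (|u| + u ^ 2) / t ≤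
      64 * (1 + u ^ 2) / t := by
    have e4 : 22 * ((1 + |u|) / t) + 22 * (1 / t) + 2 * (|u| + u ^ 2) / t =
        (22 * (1 + |u|) + 22 + 2 * (|u| + u ^ 2)) / t := by field_simp
    rw [e4]
    gcongr
    nlinarith [sq_nonneg u]
  linarith

lemma sv_ne_one (v : ℝ) : sv v ≠ 1 := fun h1 => by
  have := congrArg Complex.re h1
  rw [sv_re] at this
  norm_num at this

lemma logDeriv_xiF_sv (v : ℝ) : logDeriv xiF (sv v) =
    GG v - (Real.log π : ℂ) / 2 + logDeriv riemannZeta (sv v) := by
  have hs : 1 ≤ (sv v).re := by rw [sv_re]; norm_num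
  rw [logDeriv_xiF hs (sv_ne_one v), GG]
  ring

lemma GG_continuous : Continuous GG := by
  have hsv := sv_continuous
  have h0 : ∀ v, sv v ≠ 0 := fun v h => by
    have := sv_half_re v
    rw [h] at this
    simp at this
  have hg : Continuous (fun v : ℝ => logDeriv Complex.Gamma (sv v / 2)) := by
    have hU : IsOpen {z : ℂ | 0 < z.re} := isOpen_lt continuous_const Complex.continuous_re
    have h1 : DifferentiableOn ℂ Complex.Gamma {z : ℂ | 0 < z.re} := by
      intro z hz
      refine (Complex.differentiableAt_Gamma z fun m h => ?_).differentiableWithinAt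
      rw [h] at hz
      simp at hz
      have : (0 : ℝ) ≤ m := Nat.cast_nonneg m
      linarith
    have hcs : Continuous (fun v : ℝ => sv v / 2) := by fun_prop
    have hc1 : Continuous (fun v : ℝ => deriv Complex.Gamma (sv v / 2)) :=
      (h1.deriv hU).continuousOn.comp_continuous hcs sv_half_re
    have hc2 : Continuous (fun v : ℝ => Complex.Gamma (sv v / 2)) :=
      h1.continuousOn.comp_continuous hcs sv_half_re
    simp only [logDeriv_apply]
    exact hc1.div hc2 fun v => Complex.Gamma_ne_zero_of_re_pos (sv_half_re v)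
  unfold GG
  refine ((continuous_const.div hsv h0).add
    (continuous_const.div (hsv.sub continuous_const) fun v => ?_)).add (hg.div_const 2)
  exact sub_ne_zero.mpr (sv_ne_one v)

/-- The Gamma side. -/
lemma Adm.gamma_side (h : Adm B D M) {t : ℝ} (ht : 1 ≤ t) :
    Integrable (fun u : ℝ => hh B u * (GG (t - u) - GG t)) ∧
    ‖∫ u : ℝ, hh B u * (GG (t - u) - GG t)‖ ≤ 64 * π * M / t := by
  have ht0 : 0 < t := by linarith
  have hM := h.M_nonneg
  have hb : ∀ u : ℝ, ‖hh B u * (GG (t - u) - GG t)‖ ≤ 64 * M / t * (1 + u ^ 2)⁻¹ := by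
    intro u
    rw [norm_mul]
    calc _ ≤ M / (1 + u ^ 2) ^ 2 * (64 * (1 + u ^ 2) / t) := by
          have h1 := h.bound u
          have h2 := norm_GG_sub_le ht u
          gcongr
      _ = _ := by
          have : (1 + u ^ 2) ≠ 0 := by positivity
          field_simp
  have hc : Continuous (fun u : ℝ => hh B u * (GG (t - u) - GG t)) := by
    have h1 := h.hh_continuous
    have h2 := GG_continuous
    fun_prop
  refine ⟨(integrable_inv_one_add_sq.const_mul (64 * M / t)).mono' hc.aestronglyMeasurable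
    (Filter.Eventually.of_forall hb), ?_⟩
  refine (norm_integral_le_of_norm_le (integrable_inv_one_add_sq.const_mul (64 * M / t))
    (Filter.Eventually.of_forall hb)).trans ?_
  rw [MeasureTheory.integral_const_mul, integral_univ_inv_one_add_sq]
  refine le_of_eq ?_
  ring

/-- **Complex explicit formula** for a one-sided spectrum (RH). -/
theorem Adm.explicit (hRH : RiemannHypothesis) (h : Adm B D M) {x : ℕ}
    (hDx : Real.exp D ≤ x + 1) {t : ℝ} (ht : 1 ≤ t) :
    ∃ S : ℂ, HasSum (fun ρ : ntz => (mult ρ : ℂ) * ff B (t - (ρ : ℂ).im)) S ∧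
      ‖S + vmPoly (fun n => B (Real.log n)) x t‖ ≤ 32 * M / t := by
  have hpi : (2 * π : ℂ) ≠ 0 := by
    have : (π : ℂ) ≠ 0 := by exact_mod_cast Real.pi_ne_zero
    simp
  have h1 := (h.hasSum_zeros hRH t).mul_left (2 * (π : ℂ))⁻¹
  obtain ⟨hpi1, hp⟩ := h.prime_side hDx t
  obtain ⟨hg1, hg⟩ := h.gamma_side ht
  have e1 : ∀ u : ℝ, hh B u * (logDeriv xiF (sv (t - u)) - logDeriv xiF (sv t)) =
      hh B u * (GG (t - u) - GG t) + hh B u * logDeriv riemannZeta (sv (t - u)) -
        hh B u * logDeriv riemannZeta (sv t) := by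
    intro u
    rw [logDeriv_xiF_sv, logDeriv_xiF_sv]
    ring
  have e2 : ∫ u : ℝ, hh B u * (logDeriv xiF (sv (t - u)) - logDeriv xiF (sv t)) =
      (∫ u : ℝ, hh B u * (GG (t - u) - GG t)) -
        2 * π * vmPoly (fun n => B (Real.log n)) x t := by
    simp_rw [e1]
    have hadd : Integrable (fun u : ℝ => hh B u * (GG (t - u) - GG t) +
        hh B u * logDeriv riemannZeta (sv (t - u))) := hg1.add hpi1
    rw [integral_sub hadd (h.hh_integrable.mul_const _), integral_add hg1 hpi1,
      MeasureTheory.integral_mul_const, h.integral_hh, zero_mul, sub_zero, hp]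
    ring
  refine ⟨(2 * (π : ℂ))⁻¹ *
    ∫ u : ℝ, hh B u * (logDeriv xiF (sv (t - u)) - logDeriv xiF (sv t)), ?_, ?_⟩
  · have e5 : (fun ρ : ntz => (2 * (π : ℂ))⁻¹ *
        ((mult ρ : ℂ) * (2 * π * ff B (t - (ρ : ℂ).im)))) =
        fun ρ : ntz => (mult ρ : ℂ) * ff B (t - (ρ : ℂ).im) := by
      funext ρ
      calc _ = ((2 * (π : ℂ))⁻¹ * (2 * π)) * ((mult ρ : ℂ) * ff B (t - (ρ : ℂ).im)) := by ring
        _ = _ := by rw [inv_mul_cancel₀ hpi, one_mul]
    rw [← e5]
    exact h1
  · rw [e2]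
    have e3 : (2 * (π : ℂ))⁻¹ * ((∫ u : ℝ, hh B u * (GG (t - u) - GG t)) -
        2 * π * vmPoly (fun n => B (Real.log n)) x t) + vmPoly (fun n => B (Real.log n)) x t =
        (2 * (π : ℂ))⁻¹ * ∫ u : ℝ, hh B u * (GG (t - u) - GG t) := by
      rw [mul_sub, ← mul_assoc, inv_mul_cancel₀ hpi]
      ring
    rw [e3, norm_mul, norm_inv]
    have e4 : ‖(2 * π : ℂ)‖ = 2 * π := by
      rw [norm_mul, Complex.norm_real, Real.norm_of_nonneg Real.pi_pos.le]
      norm_num
    rw [e4]
    calc (2 * π)⁻¹ * ‖∫ u : ℝ, hh B u * (GG (t - u) - GG t)‖ ≤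
        (2 * π)⁻¹ * (64 * π * M / t) := by gcongr
      _ = _ := by
        have := Real.pi_pos
        field_simp
        ring

end Pool.Agent.ZGap.OneSided
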